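import Pool.Agent.LE.StmtsA

/-!
# DET: on the good event the decay about one site implies the decay about all sites near it
-/

set_option autoImplicit false

open MeasureTheory ProbabilityTheory Function

open scoped ENNReal BigOperators

noncomputable section

namespace Pool.Agent.LE.H83A

open Pool.Agent.Anderson Pool.Agent.Loc Pool.Agent.Mob Pool.Agent.Helper54.Bal Pool.Agent.LE

theorem big (d : ℕ) (c : ℝ) (hc : 0 < c) : ∃ L₀ : ℕ, 1 ≤ L₀ ∧ ∀ L : ℕ, L₀ ≤ L →
    1 + 2 * d * (2 * L + 1) ^ d * Real.exp (c * L) ≤ Real.exp (2 * c * L) := by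
  set A : ℝ := (1 + 2 * d) * 3 ^ d * (d + 1).factorial / c ^ (d + 1) with hA
  refine ⟨max 1 ⌈A⌉₊, le_max_left _ _, fun L hL => ?_⟩
  have h1 : 1 ≤ L := le_trans (le_max_left _ _) hL
  have h1R : (1 : ℝ) ≤ L := by exact_mod_cast h1
  have h2 : A ≤ L := le_trans (Nat.le_ceil A) (by exact_mod_cast le_trans (le_max_right _ _) hL)
  have hf : (0 : ℝ) < (d + 1).factorial := by exact_mod_cast Nat.factorial_pos _
  have h3 : (c * L) ^ (d + 1) / (d + 1).factorial ≤ Real.exp (c * L) :=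
    Real.pow_div_factorial_le_exp (c * L) (by positivity) (d + 1)
  have h4 : (1 + 2 * d) * 3 ^ d * (L : ℝ) ^ d ≤ (c * L) ^ (d + 1) / (d + 1).factorial := by
    rw [le_div_iff₀ hf, mul_pow, pow_succ (L : ℝ)]
    have h5 : (1 + 2 * (d : ℝ)) * 3 ^ d * (d + 1).factorial ≤ L * c ^ (d + 1) :=
      (div_le_iff₀ (pow_pos hc (d + 1))).1 h2
    calc (1 + 2 * (d : ℝ)) * 3 ^ d * (L : ℝ) ^ d * (d + 1).factorial
        = ((1 + 2 * (d : ℝ)) * 3 ^ d * (d + 1).factorial) * (L : ℝ) ^ d := by ring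
      _ ≤ (L * c ^ (d + 1)) * (L : ℝ) ^ d := mul_le_mul_of_nonneg_right h5 (by positivity)
      _ = _ := by ring
  have h6 : 1 + 2 * (d : ℝ) * (2 * L + 1) ^ d ≤ Real.exp (c * L) := by
    calc 1 + 2 * (d : ℝ) * (2 * L + 1) ^ d ≤ (1 + 2 * d) * (2 * L + 1) ^ d := by
          have : (1 : ℝ) ≤ (2 * L + 1) ^ d := one_le_pow₀ (by linarith)
          nlinarith
      _ ≤ (1 + 2 * d) * (3 * L) ^ d := by
          apply mul_le_mul_of_nonneg_left _ (by positivity)
          exact pow_le_pow_left₀ (by positivity) (by linarith) d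
      _ = (1 + 2 * d) * 3 ^ d * (L : ℝ) ^ d := by rw [mul_pow]; ring
      _ ≤ _ := h4.trans h3
  have h7 : 1 ≤ Real.exp (c * L) := Real.one_le_exp (by positivity)
  calc 1 + 2 * (d : ℝ) * (2 * L + 1) ^ d * Real.exp (c * L)
      ≤ (1 + 2 * (d : ℝ) * (2 * L + 1) ^ d) * Real.exp (c * L) := by nlinarith
    _ ≤ Real.exp (c * L) * Real.exp (c * L) := mul_le_mul_of_nonneg_right h6 (by positivity)
    _ = _ := by
        rw [← Real.exp_add]
        congr 1
        ring

variable {d : ℕ}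

/-- coordinatewise division -/
theorem exK {ℓ : ℕ} (hℓ : 1 ≤ ℓ) (M : ℕ) (a s : Site d) (hs : sd a s ≤ M * ℓ) :
    ∃ k : Site d, sd 0 k ≤ M ∧ sd (a + sm ℓ k) s ≤ ℓ := by
  have hl : (0 : ℤ) < ℓ := by exact_mod_cast hℓ
  refine ⟨fun i => (s i - a i) / ℓ, ?_, ?_⟩
  · rw [sd_le_iff]
    intro i
    have h := sd_le_iff.1 hs i
    push_cast at h
    obtain ⟨h1, h2⟩ := abs_le.1 h
    simp only [Pi.zero_apply]
    have e1 : (s i - a i) / (ℓ : ℤ) ≤ M := Int.ediv_le_of_le_mul hl (by linarith)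
    have e2 : -(M : ℤ) ≤ (s i - a i) / (ℓ : ℤ) := by
      rw [Int.le_ediv_iff_mul_le hl]
      linarith
    rw [abs_le]
    constructor <;> linarith
  · rw [sd_le_iff]
    intro i
    have e1 := Int.mul_ediv_add_emod (s i - a i) (ℓ : ℤ)
    have e2 := Int.emod_nonneg (s i - a i) hl.ne'
    have e3 := Int.emod_lt_of_pos (s i - a i) hl
    simp only [Pi.add_apply, sm]
    rw [abs_le]
    constructor <;> linarith

/-- the nearest site of the coarse sphere -/
theorem exY [NeZero d] {ℓ Q : ℕ} (hℓ : 1 ≤ ℓ) (g u : Site d)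
    (h1 : Q * ℓ ≤ sd g u + ℓ) (h2 : sd g u ≤ Q * ℓ + 1 + ℓ) :
    ∃ y : Site d, sd 0 y = Q ∧ sd (g + sm ℓ y) u ≤ 2 * ℓ := by
  have hl : (0 : ℤ) < ℓ := by exact_mod_cast hℓ
  have hl1 : (1 : ℤ) ≤ ℓ := by exact_mod_cast hℓ
  have hQ0 : (0 : ℤ) ≤ Q := by positivity
  obtain ⟨i₀, hi₀⟩ := exists_sd_eq g u
  have h1' : (Q : ℤ) * ℓ ≤ sd g u + ℓ := by exact_mod_cast h1
  have h2' : (sd g u : ℤ) ≤ Q * ℓ + 1 + ℓ := by exact_mod_cast h2
  refine ⟨fun i => if i = i₀ then (if g i₀ ≤ u i₀ then (Q : ℤ) else -Q) else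
    max (-(Q : ℤ)) (min Q ((u i - g i) / ℓ)), ?_, ?_⟩
  · apply le_antisymm
    · rw [sd_le_iff]
      intro i
      simp only [Pi.zero_apply]
      split_ifs
      · simp
      · simp
      · rw [abs_le]
        have e1 : -(Q : ℤ) ≤ max (-(Q : ℤ)) (min Q ((u i - g i) / ℓ)) := le_max_left _ _
        have e2 : max (-(Q : ℤ)) (min Q ((u i - g i) / ℓ)) ≤ Q :=
          max_le (by linarith) (min_le_left _ _)
        constructor <;> linarith
    · have key : ∀ yy : Site d, |yy i₀| = Q → Q ≤ sd 0 yy := by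
        intro yy hyy
        have h3 := sd_le_iff.1 (le_refl (sd (0 : Site d) yy)) i₀
        simp only [Pi.zero_apply, zero_sub, abs_neg] at h3
        rw [hyy] at h3
        exact_mod_cast h3
      apply key
      simp only [if_true]
      split_ifs
      · exact Nat.abs_cast Q
      · rw [abs_neg]
        exact Nat.abs_cast Q
  · rw [sd_le_iff]
    intro i
    simp only [Pi.add_apply, sm]
    have h4 := sd_le_iff.1 (le_refl (sd g u)) i
    obtain ⟨h5, h6⟩ := abs_le.1 h4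
    push_cast
    by_cases hi : i = i₀
    · subst hi
      rw [if_pos rfl]
      by_cases hgu : g i ≤ u i
      · rw [if_pos hgu]
        rw [abs_of_nonpos (by linarith : g i - u i ≤ 0)] at hi₀
        rw [abs_le]
        constructor <;> linarith
      · rw [if_neg hgu]
        rw [abs_of_pos (by linarith [not_le.1 hgu] : 0 < g i - u i)] at hi₀
        rw [abs_le]
        constructor <;> linarith
    · rw [if_neg hi]
      have e1 := Int.mul_ediv_add_emod (u i - g i) (ℓ : ℤ)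
      have e2 := Int.emod_nonneg (u i - g i) hl.ne'
      have e3 := Int.emod_lt_of_pos (u i - g i) hl
      set q : ℤ := (u i - g i) / ℓ with hq
      rcases lt_or_ge (Q : ℤ) q with c1 | c1
      · rw [min_eq_left c1.le, max_eq_right (by linarith)]
        have e4 : (ℓ : ℤ) * (Q + 1) ≤ ℓ * q := mul_le_mul_of_nonneg_left (by linarith) hl.le
        rw [abs_le]
        constructor <;> nlinarith
      · rw [min_eq_right c1]
        rcases lt_or_ge q (-(Q : ℤ)) with c2 | c2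
        · rw [max_eq_left c2.le]
          have e4 : (ℓ : ℤ) * q ≤ ℓ * (-Q - 1) := mul_le_mul_of_nonneg_left (by linarith) hl.le
          rw [abs_le]
          constructor <;> nlinarith
        · rw [max_eq_right c2]
          rw [abs_le]
          constructor <;> linarith

theorem sd_sm (ℓ : ℕ) (a y : Site d) : sd a (a + sm ℓ y) ≤ ℓ * sd 0 y := by
  rw [sd_le_iff]
  intro i
  have h := sd_le_iff.1 (le_refl (sd 0 y)) i
  simp only [Pi.zero_apply, zero_sub, abs_neg] at h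
  simp only [Pi.add_apply, sm]
  push_cast
  calc |a i - (a i + ℓ * y i)| = ℓ * |y i| := by
        rw [show a i - (a i + ℓ * y i) = -(ℓ * y i) by ring, abs_neg, abs_mul, Nat.abs_cast]
    _ ≤ _ := mul_le_mul_of_nonneg_left h (by positivity)

theorem sd_sm_eq [NeZero d] (ℓ : ℕ) (a y : Site d) : sd a (a + sm ℓ y) = ℓ * sd 0 y := by
  apply le_antisymm (sd_sm ℓ a y)
  obtain ⟨i, hi⟩ := exists_sd_eq (0 : Site d) y
  have h := sd_le_iff.1 (le_refl (sd a (a + sm ℓ y))) i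
  simp only [Pi.zero_apply, zero_sub, abs_neg] at hi
  simp only [Pi.add_apply, sm] at h
  rw [show a i - (a i + ℓ * y i) = -(ℓ * y i) by ring, abs_neg, abs_mul, Nat.abs_cast, ← hi] at h
  exact_mod_cast h

theorem sm_add (ℓ : ℕ) (x y : Site d) : sm ℓ (x + y) = sm ℓ x + sm ℓ y := by
  funext i
  simp only [sm, Pi.add_apply]
  ring

theorem sd_zero_add (x y : Site d) : sd 0 (x + y) ≤ sd 0 x + sd 0 y := by
  rw [sd_le_iff]
  intro i
  have h1 := sd_le_iff.1 (le_refl (sd 0 x)) i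
  have h2 := sd_le_iff.1 (le_refl (sd 0 y)) i
  simp only [Pi.zero_apply, zero_sub, abs_neg] at h1 h2
  simp only [Pi.zero_apply, zero_sub, abs_neg, Pi.add_apply]
  push_cast
  exact (abs_add_le _ _).trans (add_le_add h1 h2)

theorem DL_comm (Λ : Finset (Site d)) (E : ℝ) (V : Site d → ℝ) (x y : Site d) :
    DL Λ E V x y = DL Λ E V y x := by
  unfold DL
  rw [gr_symm]

theorem det (fvd : FvdStmt) : DetStmt := by
  intro d κ κ₃ hd hκ hκ₃ h20
  have : NeZero d := ⟨by omega⟩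
  obtain ⟨L₀, hL₀, hbig⟩ := big d κ₃ hκ₃
  refine ⟨L₀, ?_⟩
  intro V N Q ℓ a E hQ hℓ hL hsub hG hSG s hs
  obtain ⟨g1, g2, g3, g4, g5, g6⟩ := hG
  have hLn : 1 ≤ Q * ℓ := le_trans hL₀ hL
  have hlL : ℓ ≤ Q * ℓ := Nat.le_mul_of_pos_left ℓ hQ
  have hbig' := hbig (Q * ℓ) hL
  have hcast : ((Q * ℓ : ℕ) : ℝ) = (Q : ℝ) * ℓ := by push_cast; rfl
  rw [← hcast] at g2 g3 g4 g5 g6
  set L : ℕ := Q * ℓ with hLdef
  have hT : (0 : ℝ) ≤ Real.exp (κ₃ * L) := (Real.exp_pos _).le
  have hLR : (1 : ℝ) ≤ L := by exact_mod_cast hLn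
  -- the two comparisons
  have sub12 : ∀ t : Site d, sd a t ≤ 8 * L → box t (L + 1) ⊆ box a (12 * L) := by
    intro t ht x hx
    rw [mem_box] at hx ⊢
    have := sd_triangle a t x
    omega
  have FV : ∀ t : Site d, sd a t ≤ 8 * L → ∀ A : ℝ, 0 ≤ A →
      ((∀ u, sd t u = L → |gr V (box t L) E t u| ≤ A) → ∀ u, (sd t u = L ∨ sd t u = L + 1) →
        |gr V (box 0 N) E t u| ≤ Real.exp (2 * κ₃ * L) * A) ∧
      ((∀ u, (sd t u = L ∨ sd t u = L + 1) → |gr V (box 0 N) E t u| ≤ A) → ∀ u, sd t u = L →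
        |gr V (box t L) E t u| ≤ Real.exp (2 * κ₃ * L) * A) := by
    intro t ht A hA
    have h8 := g6 t (mem_box.2 ht)
    have := fvd d V (box 0 N) t L E (Real.exp (κ₃ * L)) A hT hA
      ((sub12 t ht).trans hsub) g1 h8.1 h8.2
      (fun x hx y hy => (g2 x (sub12 t ht hx) y (sub12 t ht hy)).2)
    refine ⟨fun h u hu => (this.1 h u hu).trans (mul_le_mul_of_nonneg_right hbig' hA),
      fun h u hu => (this.2 h u hu).trans (mul_le_mul_of_nonneg_right hbig' hA)⟩
  -- decay about `a` in the large cube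
  have A1 : ∀ u, (sd a u = L ∨ sd a u = L + 1) → (κ - 2 * κ₃) * L ≤ DL (box 0 N) E V a u := by
    intro u hu
    have h0 : sd a a ≤ 8 * L := by rw [sd_self]; omega
    have h1 := (FV a h0 (Real.exp (-κ * L)) (Real.exp_pos _).le).1 hSG.2 u hu
    have hne := (g2 a (by rw [mem_box, sd_self]; omega) u (by rw [mem_box]; omega)).1
    rw [← Real.exp_add] at h1
    unfold DL
    have h2 := Real.log_le_log (abs_pos.2 hne) h1
    rw [Real.log_exp] at h2
    nlinarith
  have A2 : ∀ k : Site d, sd 0 k ≤ 8 * Q → ∀ y : Site d, sd 0 y = Q →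
      (κ - 3 * κ₃) * L ≤ DL (box 0 N) E V (a + sm ℓ k) (a + sm ℓ k + sm ℓ y) := by
    intro k hk y hy
    have h1 := A1 (a + sm ℓ y) (Or.inl (by rw [sd_sm_eq, hy, hLdef, Nat.mul_comm]))
    have h2 := g5 k (mem_box.2 hk) y (mem_box.2 hy.le)
    have h3 := (abs_le.1 h2).2
    nlinarith
  -- decay about `s` in the large cube
  have hs' : sd a s ≤ 7 * L := mem_box.1 hs
  have A3 : ∀ u, (sd s u = L ∨ sd s u = L + 1) →
      |gr V (box 0 N) E s u| ≤ Real.exp (-(κ - 7 * κ₃) * L) := by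
    intro u hu
    obtain ⟨k, hk, hks⟩ := exK hℓ (7 * Q) a s (by rw [Nat.mul_assoc]; exact hs')
    have t1 := sd_triangle (a + sm ℓ k) s u
    have t2 := sd_triangle s (a + sm ℓ k) u
    rw [sd_comm s (a + sm ℓ k)] at t2
    obtain ⟨y, hy, hyu⟩ := exY (Q := Q) hℓ (a + sm ℓ k) u (by omega) (by omega)
    have hky : a + sm ℓ k + sm ℓ y = a + sm ℓ (k + y) := by rw [sm_add, add_assoc]
    have q1 : sd 0 (k + y) ≤ 8 * Q := by
      have := sd_zero_add k y
      omega
    have q2 : sd a (a + sm ℓ k) ≤ 7 * L := by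
      calc sd a (a + sm ℓ k) ≤ ℓ * sd 0 k := sd_sm ℓ a k
        _ ≤ ℓ * (7 * Q) := Nat.mul_le_mul_left ℓ hk
        _ = 7 * L := by rw [hLdef]; ring
    have q3 : sd a (a + sm ℓ (k + y)) ≤ 8 * L := by
      calc sd a (a + sm ℓ (k + y)) ≤ ℓ * sd 0 (k + y) := sd_sm ℓ a (k + y)
        _ ≤ ℓ * (8 * Q) := Nat.mul_le_mul_left ℓ q1
        _ = 8 * L := by rw [hLdef]; ring
    have q4 : sd a u ≤ 9 * L := by
      have := sd_triangle a s u
      omega
    have b1 : a + sm ℓ k ∈ box a (12 * L) := mem_box.2 (by omega)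
    have b2 : a + sm ℓ (k + y) ∈ box a (12 * L) := mem_box.2 (by omega)
    have b3 : s ∈ box a (12 * L) := mem_box.2 (by omega)
    have b4 : u ∈ box a (12 * L) := mem_box.2 (by omega)
    have r1 := A2 k (by omega) y hy
    rw [hky] at r1 hyu
    have r2 := g3 (a + sm ℓ k) b1 s b3 (a + sm ℓ (k + y)) b2
    have r3 := g3 s b3 u b4 (a + sm ℓ (k + y)) b2
    have r4 := g4 k (mem_box.2 (by omega)) s (mem_box.2 (by omega))
    have r5 := g4 (k + y) (mem_box.2 (by omega)) u (mem_box.2 (by omega))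
    rw [DL_comm] at r5
    have r6 : (κ - 7 * κ₃) * L ≤ DL (box 0 N) E V s u := by nlinarith
    have hne := (g2 s b3 u b4).1
    unfold DL at r6
    rw [← Real.exp_log (abs_pos.2 hne)]
    exact Real.exp_le_exp.2 (by linarith)
  have hs8 : sd a s ≤ 8 * L := by omega
  refine ⟨(g6 s (mem_box.2 hs8)).1, fun u hu => ?_⟩
  refine ((FV s hs8 _ (Real.exp_pos _).le).2 A3 u hu).trans ?_
  rw [← Real.exp_add]
  refine Real.exp_le_exp.2 ?_
  nlinarith

end Pool.Agent.LE.H83A
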